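import Pool.Agent.H37.CF.Targets

/-!
# Complete family, algebra: elementary facts on numbers and ideals prime to `f`
-/

set_option autoImplicit false
set_option linter.unusedSectionVars false

open NumberField
open scoped nonZeroDivisors

namespace Pool.Agent.H37.CF

open Pool.Agent.H31.CN Pool.Agent.H95.CF

variable {K : Type} [Field K] [NumberField K] {f m : ℕ} {I J : Ideal (𝓞 K)} {a b : 𝓞 K}

theorem pr_top (K : Type) [Field K] [NumberField K] (f : ℕ) : Pr K f ⊤ :=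
  ⟨top_ne_bot, top_sup_eq _⟩

theorem sup_mul_iff {A B C : Ideal (𝓞 K)} : A * B ⊔ C = ⊤ ↔ A ⊔ C = ⊤ ∧ B ⊔ C = ⊤ := by
  constructor
  · intro h
    exact ⟨top_le_iff.1 (h ▸ sup_le_sup_right Ideal.mul_le_left C),
      top_le_iff.1 (h ▸ sup_le_sup_right Ideal.mul_le_right C)⟩
  · rintro ⟨h1, h2⟩
    rw [Ideal.eq_top_iff_one] at h1 h2 ⊢
    obtain ⟨x, hx, y, hy, hxy⟩ := Submodule.mem_sup.1 h1
    obtain ⟨z, hz, w, hw, hzw⟩ := Submodule.mem_sup.1 h2
    have h3 : (1 : 𝓞 K) = x * z + (x * w + y * 1) := by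
      have h4 : (1 : 𝓞 K) = x * (z + w) + y * 1 := by rw [hzw, mul_one, mul_one, hxy]
      linear_combination h4
    rw [h3]
    exact Submodule.add_mem_sup (Ideal.mul_mem_mul hx hz)
      (C.add_mem (C.mul_mem_left _ hw) (C.mul_mem_right _ hy))

theorem pr_mul : Pr K f (I * J) ↔ Pr K f I ∧ Pr K f J := by
  constructor
  · rintro ⟨h1, h2⟩
    rw [Ne, Ideal.mul_eq_bot, not_or] at h1
    have h3 := sup_mul_iff.1 h2
    exact ⟨⟨h1.1, h3.1⟩, ⟨h1.2, h3.2⟩⟩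
  · rintro ⟨h1, h2⟩
    refine ⟨?_, sup_mul_iff.2 ⟨h1.2, h2.2⟩⟩
    rw [Ne, Ideal.mul_eq_bot, not_or]
    exact ⟨h1.1, h2.1⟩

theorem pr_span_mul : Pr K f (Ideal.span {a * b}) ↔
    Pr K f (Ideal.span {a}) ∧ Pr K f (Ideal.span {b}) := by
  rw [← Ideal.span_singleton_mul_span_singleton, pr_mul]

theorem pr_ne (h : Pr K f (Ideal.span {a})) : a ≠ 0 := fun h1 =>
  h.1 (by rw [h1, Ideal.span_singleton_eq_bot])

theorem pr_one : Pr K f (Ideal.span {(1 : 𝓞 K)}) := by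
  rw [Ideal.span_singleton_one]
  exact pr_top K f

/-- a divisor of an ideal prime to `f` -/
theorem pr_of_dvd (h : Pr K f J) (hIJ : I ∣ J) : Pr K f I := by
  obtain ⟨C, rfl⟩ := hIJ
  exact (pr_mul.1 h).1

theorem mem_fspan {x : 𝓞 K} : x ∈ Ideal.span {(m : 𝓞 K)} ↔ ∃ c, x = m * c := by
  rw [Ideal.mem_span_singleton]
  rfl

theorem fspan_mono {d : ℕ} (h : d ∣ m) {x : 𝓞 K} (hx : x ∈ Ideal.span {(m : 𝓞 K)}) :
    x ∈ Ideal.span {(d : 𝓞 K)} := by
  obtain ⟨e, rfl⟩ := h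
  obtain ⟨c, rfl⟩ := mem_fspan.1 hx
  refine mem_fspan.2 ⟨e * c, ?_⟩
  push_cast
  ring

theorem fspan_int {n : ℤ} (h : (m : ℤ) ∣ n) : (n : 𝓞 K) ∈ Ideal.span {(m : 𝓞 K)} := by
  obtain ⟨c, rfl⟩ := h
  exact mem_fspan.2 ⟨c, by push_cast; rfl⟩

/-- a natural number prime to `f` -/
theorem pr_nat {n : ℕ} (hn : 1 ≤ n) (h : n.Coprime f) : Pr K f (Ideal.span {(n : 𝓞 K)}) := by
  refine ⟨?_, ?_⟩
  · intro h0
    rw [Ideal.span_singleton_eq_bot] at h0
    exact (by omega : n ≠ 0) (by exact_mod_cast h0)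
  · rw [Ideal.eq_top_iff_one]
    have h2 := Nat.gcd_eq_gcd_ab n f
    rw [h] at h2
    have h1 : (1 : 𝓞 K) = n * (Nat.gcdA n f : 𝓞 K) + f * (Nat.gcdB n f : 𝓞 K) := by
      exact_mod_cast congrArg (Int.cast : ℤ → 𝓞 K) h2
    rw [h1]
    exact Submodule.add_mem_sup (Ideal.mul_mem_right _ _ (Ideal.mem_span_singleton_self _))
      (Ideal.mul_mem_right _ _ (Ideal.mem_span_singleton_self _))

/-- a number that is invertible modulo `f` -/
theorem pr_of_inv (ha : a ≠ 0) (h : a * b - 1 ∈ Ideal.span {(f : 𝓞 K)}) :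
    Pr K f (Ideal.span {a}) := by
  refine ⟨by rwa [Ne, Ideal.span_singleton_eq_bot], ?_⟩
  rw [Ideal.eq_top_iff_one]
  have h1 : (1 : 𝓞 K) = a * b + -(a * b - 1) := by ring
  rw [h1]
  exact Submodule.add_mem_sup (Ideal.mul_mem_right _ _ (Ideal.mem_span_singleton_self _))
    (Ideal.neg_mem_iff _ |>.2 h)

/-- inverses modulo `f` -/
theorem ex_inv (h : Pr K f (Ideal.span {a})) :
    ∃ b : 𝓞 K, Pr K f (Ideal.span {b}) ∧ a * b - 1 ∈ Ideal.span {(f : 𝓞 K)} := by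
  have h1 := h.2
  rw [Ideal.eq_top_iff_one] at h1
  obtain ⟨x, hx, y, hy, hxy⟩ := Submodule.mem_sup.1 h1
  obtain ⟨b, rfl⟩ := Ideal.mem_span_singleton.1 hx
  by_cases hb : b = 0
  · subst hb
    rw [mul_zero, zero_add] at hxy
    subst hxy
    have h2 : Ideal.span {(f : 𝓞 K)} = ⊤ := by
      rw [Ideal.eq_top_iff_one]
      exact hy
    exact ⟨1, pr_one, by rw [h2]; trivial⟩
  · have h3 : a * b - 1 ∈ Ideal.span {(f : 𝓞 K)} := by
      have h4 : a * b - 1 = -y := by rw [← hxy]; ring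
      rw [h4]
      exact (Ideal.neg_mem_iff _).2 hy
    exact ⟨b, pr_of_inv hb (by rwa [mul_comm b a]), h3⟩

/-- a natural number in the class of an integer -/
theorem ex_nat (hf : 1 ≤ f) (n : ℤ) : ∃ k : ℕ, 1 ≤ k ∧ (f : ℤ) ∣ (k : ℤ) - n := by
  have hf' : (0 : ℤ) < f := by exact_mod_cast hf
  refine ⟨(n % f).toNat + f, by omega, ?_⟩
  have h1 : (0 : ℤ) ≤ n % f := Int.emod_nonneg _ hf'.ne'
  push_cast
  rw [Int.toNat_of_nonneg h1]
  have h2 : n % (f : ℤ) + f - n = f * (1 - n / f) := by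
    have h3 := Int.emod_add_mul_ediv n (f : ℤ)
    linarith
  rw [h2]
  exact dvd_mul_right _ _

theorem not_unit_prime {q : ℕ} (hq : q.Prime) : Ideal.span {(q : 𝓞 K)} ≠ ⊤ := by
  intro h
  rw [Ideal.span_singleton_eq_top] at h
  have h1 : IsUnit (algebraMap ℤ (𝓞 K) q) := by simpa using h
  have h2 : IsUnit (Algebra.norm ℤ (algebraMap ℤ (𝓞 K) q)) := h1.map (Algebra.norm ℤ)
  rw [Algebra.norm_algebraMap, isUnit_pow_iff (Module.finrank_pos (R := ℤ) (M := 𝓞 K)).ne'] at h2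
  have h3 : IsUnit (q : ℕ) := by
    rw [← Int.natAbs_natCast q]
    exact Int.isUnit_iff_natAbs_eq.1 h2 ▸ isUnit_one
  exact hq.one_lt.ne' (Nat.isUnit_iff.1 h3)

/-- a prime number that divides a number and `f` -/
theorem not_mem_prime {q : ℕ} (hq : q.Prime) (hqf : q ∣ f) (h : Pr K f (Ideal.span {a})) :
    a ∉ Ideal.span {(q : 𝓞 K)} := by
  intro ha
  apply not_unit_prime (K := K) hq
  rw [← top_le_iff, ← h.2]
  refine sup_le ?_ ?_
  · rwa [Ideal.span_singleton_le_iff_mem]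
  · rw [Ideal.span_singleton_le_iff_mem]
    exact fspan_mono hqf (Ideal.mem_span_singleton_self _)

/-- an integer congruent to a number prime to `f` -/
theorem int_coprime {n : ℤ} (hm : m ∣ f) (h : Pr K f (Ideal.span {a}))
    (hn : a - n ∈ Ideal.span {(m : 𝓞 K)}) : IsCoprime n (m : ℤ) := by
  by_contra hcon
  rw [Int.isCoprime_iff_gcd_eq_one] at hcon
  obtain ⟨q, hq, hqd⟩ := Nat.exists_prime_and_dvd hcon
  have h1 : (q : ℤ) ∣ n := (Int.natCast_dvd_natCast.2 hqd).trans (Int.gcd_dvd_left _ _)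
  have h2 : (q : ℤ) ∣ (m : ℤ) := (Int.natCast_dvd_natCast.2 hqd).trans (Int.gcd_dvd_right _ _)
  have h3 : q ∣ m := by exact_mod_cast h2
  apply not_mem_prime hq (h3.trans hm) h
  have h4 : a = (a - n) + n := by ring
  rw [h4]
  exact Ideal.add_mem _ (fspan_mono h3 hn) (fspan_int h1)

theorem rat_one : Rat K f m 1 := ⟨pr_one, 1, by simp⟩

theorem rat_nat {n : ℕ} (hn : 1 ≤ n) (h : n.Coprime f) : Rat K f m (n : 𝓞 K) :=
  ⟨pr_nat hn h, n, by simp⟩

theorem rat_mul (ha : Rat K f m a) (hb : Rat K f m b) : Rat K f m (a * b) := by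
  obtain ⟨h1, n, hn⟩ := ha
  obtain ⟨h2, k, hk⟩ := hb
  refine ⟨pr_span_mul.2 ⟨h1, h2⟩, n * k, ?_⟩
  have h3 : a * b - ((n * k : ℤ) : 𝓞 K) = b * (a - n) + n * (b - k) := by
    push_cast
    ring
  rw [h3]
  exact Ideal.add_mem _ (Ideal.mul_mem_left _ _ hn) (Ideal.mul_mem_left _ _ hk)

theorem rat_mono {d : ℕ} (h : d ∣ m) (ha : Rat K f m a) : Rat K f d a := by
  obtain ⟨h1, n, hn⟩ := ha
  exact ⟨h1, n, fspan_mono h hn⟩

section group

variable {G : Type} [CommGroup G] {cl : Ideal (𝓞 K) → G}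

theorem cl_top (h : RG K f G cl) : cl ⊤ = 1 := by
  have h1 := h.mul ⊤ ⊤ (pr_top K f) (pr_top K f)
  rw [Ideal.mul_top] at h1
  exact (mul_eq_left.1 h1.symm)

/-- rational numbers have the trivial class -/
theorem cl_rat (h : RG K f G cl) (ha : Rat K f f a) : cl (Ideal.span {a}) = 1 := by
  rw [← cl_top h, h.eqv _ _ ha.1 (pr_top K f)]
  refine ⟨1, a, rat_one, ha, ?_⟩
  rw [Ideal.mul_top, Ideal.span_singleton_one, Ideal.top_mul]

theorem cl_span_mul (h : RG K f G cl) (ha : Pr K f (Ideal.span {a}))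
    (hb : Pr K f (Ideal.span {b})) :
    cl (Ideal.span {a * b}) = cl (Ideal.span {a}) * cl (Ideal.span {b}) := by
  rw [← Ideal.span_singleton_mul_span_singleton, h.mul _ _ ha hb]

/-- congruent numbers, up to an integer factor, have the same class -/
theorem cl_congr (h : RG K f G cl) (ha : Pr K f (Ideal.span {a}))
    (hb : Pr K f (Ideal.span {b})) {r : ℤ} (hr : a - r * b ∈ Ideal.span {(f : 𝓞 K)}) :
    cl (Ideal.span {a}) = cl (Ideal.span {b}) := by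
  obtain ⟨c, hc, hbc⟩ := ex_inv hb
  rw [h.eqv _ _ ha hb]
  refine ⟨b * c, a * c, ⟨pr_span_mul.2 ⟨hb, hc⟩, 1, by simpa using hbc⟩,
    ⟨pr_span_mul.2 ⟨ha, hc⟩, r, ?_⟩, ?_⟩
  · have h1 : a * c - (r : 𝓞 K) = c * (a - r * b) + r * (b * c - 1) := by ring
    rw [h1]
    exact Ideal.add_mem _ (Ideal.mul_mem_left _ _ hr) (Ideal.mul_mem_left _ _ hbc)
  · rw [Ideal.span_singleton_mul_span_singleton, Ideal.span_singleton_mul_span_singleton]
    congr 2
    ring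

end group

end Pool.Agent.H37.CF
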