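import Pool.Agent.H91.CF.Main
import Pool.Agent.H95.CF.T2B
import Pool.Agent.H24.Cls.Primes
import Pool.Agent.H24.Cls.Exist

/-!
# Complete family, algebra: ring class groups and ray class characters, targets
-/

set_option autoImplicit false

open NumberField
open scoped nonZeroDivisors

namespace Pool.Agent.H37.CF

open Pool.Agent.H31.CN Pool.Agent.H95.CF Pool.Agent.H28.RC
open Pool.Agent.H91.CF (ch npt npD xit xiD pit piD TrQ NRe NVc RQ nn rr ww fmD Fu)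
open Pool.Agent.H24.Cls (Quad)

/-- `K` is the imaginary quadratic field of discriminant `-D`, with units `±1` -/
structure IQ (K : Type) [Field K] [NumberField K] (D : ℕ) : Prop where
  big : 4 < D
  deg : Module.finrank ℚ K = 2
  dis : discr K = -(D : ℤ)

/-! ### Ideals and numbers prime to `f` -/

/-- (COP) an ideal is prime to `f` iff its norm is prime to `f`. -/
def T_COP : Prop :=
  ∀ (K : Type) [Field K] [NumberField K] (f : ℕ) (I : Ideal (𝓞 K)), I ≠ ⊥ →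
    (I ⊔ Ideal.span {(f : 𝓞 K)} = ⊤ ↔ (Ideal.absNorm I).Coprime f)

/-- (INV) inverse classes. -/
def T_INV : Prop :=
  ∀ (K : Type) [Field K] [NumberField K] (f : ℕ) (I : Ideal (𝓞 K)), 1 ≤ f → Pr K f I →
    ∃ J : Ideal (𝓞 K), Pr K f J ∧ I * J = Ideal.span {(Ideal.absNorm I : 𝓞 K)} ∧
      (Ideal.absNorm I).Coprime f

/-- (CPI) every ideal class contains an ideal prime to `f`. -/
def T_CPI : Prop :=
  ∀ (K : Type) [Field K] [NumberField K] (f : ℕ) (c : ClassGroup (𝓞 K)), 1 ≤ f →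
    ∃ I : (Ideal (𝓞 K))⁰, Pr K f (I : Ideal (𝓞 K)) ∧ ClassGroup.mk0 I = c

/-- (UNI) the units. -/
def T_UNI : Prop :=
  ∀ (K : Type) [Field K] [NumberField K] (D : ℕ), IQ K D →
    (∀ u : (𝓞 K)ˣ, u = 1 ∨ u = -1) ∧
    ∀ α : 𝓞 K, 4 * Ideal.absNorm (Ideal.span {α}) < D → ∃ n : ℤ, α = n

/-! ### The group -/

/-- (RGE) the ring class group exists. -/
def T_RGE : Prop :=
  ∀ (K : Type) [Field K] [NumberField K] (f : ℕ), 1 ≤ f →
    ∃ (G : Type) (_ : CommGroup G) (_ : Finite G) (cl : Ideal (𝓞 K) → G), RG K f G cl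

/-- (CLA) the map to the ideal class group. -/
def T_CLA : Prop :=
  ∀ (K : Type) [Field K] [NumberField K] (f : ℕ) (G : Type) [CommGroup G]
    (cl : Ideal (𝓞 K) → G), 1 ≤ f → RG K f G cl →
    ∃ π : G →* ClassGroup (𝓞 K), Function.Surjective π ∧
      (∀ I : (Ideal (𝓞 K))⁰, Pr K f (I : Ideal (𝓞 K)) → π (cl I) = ClassGroup.mk0 I) ∧
      ∀ g, π g = 1 ↔ g ∈ Hd K f cl f

/-- (EQP) the classes of numbers. -/
def T_EQP : Prop :=
  ∀ (K : Type) [Field K] [NumberField K] (D f : ℕ) (G : Type) [CommGroup G]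
    (cl : Ideal (𝓞 K) → G), IQ K D → 1 ≤ f → RG K f G cl →
    ∀ a b : 𝓞 K, Pr K f (Ideal.span {a}) → Pr K f (Ideal.span {b}) →
      (cl (Ideal.span {a}) = cl (Ideal.span {b}) ↔
        ∃ r : ℤ, IsCoprime r (f : ℤ) ∧ a - r * b ∈ Ideal.span {(f : 𝓞 K)})

/-- the pairs modulo `f` with second entry divisible by `f / d` and value prime to `f` -/
def prs (t n : ℤ) (f d : ℕ) : Finset (ℕ × ℕ) :=
  (Finset.range f ×ˢ Finset.range f).filter (fun v => f / d ∣ v.2 ∧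
    Int.gcd ((v.1 : ℤ) ^ 2 + t * v.1 * v.2 + n * (v.2 : ℤ) ^ 2) f = 1)

/-- (CNM) multiplicativity. -/
def T_CNM : Prop :=
  ∀ (t n : ℤ) (f₁ f₂ d₁ d₂ : ℕ), f₁.Coprime f₂ → 1 ≤ f₁ → 1 ≤ f₂ → d₁ ∣ f₁ → d₂ ∣ f₂ →
    (prs t n (f₁ * f₂) (d₁ * d₂)).card = (prs t n f₁ d₁).card * (prs t n f₂ d₂).card

/-- (CNP) prime powers. -/
def T_CNP : Prop :=
  ∀ (t n : ℤ) (p k j : ℕ), p.Prime → 1 ≤ k →
    (j < k → (prs t n (p ^ k) (p ^ j)).card = (p ^ k).totient * p ^ j) ∧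
    ((prs t n (p ^ k) (p ^ k)).card : ℤ) =
      (p ^ k).totient * ((p : ℤ) ^ (k - 1) * (p + 1 - nrt p 1 t n))

/-- (CNU) the number of pairs. -/
def T_CNU : Prop :=
  ∀ (t n : ℤ) (f d : ℕ), 1 ≤ f → d ∣ f →
    ((prs t n f d).card : ℤ) = f.totient * ∏ p ∈ d.primeFactors,
      (if d.factorization p < f.factorization p then (p : ℤ) ^ d.factorization p
        else (p : ℤ) ^ (d.factorization p - 1) * (p + 1 - nrt p 1 t n))

/-- (HDC) the number of classes in `Hd`. -/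
def T_HDC : Prop :=
  ∀ (K : Type) [Field K] [NumberField K] (D f : ℕ) (G : Type) [CommGroup G]
    (cl : Ideal (𝓞 K) → G) (Q : Quad (𝓞 K)) (d : ℕ), IQ K D → 1 ≤ f → RG K f G cl → d ∣ f →
    Nat.card (Hd K f cl d) * f.totient = (prs Q.t Q.n f d).card

/-- (HSB) the subgroups `Hd`. -/
def T_HSB : Prop :=
  ∀ (K : Type) [Field K] [NumberField K] (D f : ℕ) (G : Type) [CommGroup G]
    (cl : Ideal (𝓞 K) → G), IQ K D → 1 ≤ f → RG K f G cl →
    ∃ H : ℕ → Subgroup G, (∀ d, d ∣ f → (H d : Set G) = Hd K f cl d) ∧ H 1 = ⊥ ∧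
      ∀ d₁ d₂ : ℕ, d₁ * d₂ ∣ f → d₁.Coprime d₂ →
        H (d₁ * d₂) = H d₁ ⊔ H d₂ ∧ Disjoint (H d₁) (H d₂)

/-- (NRT) the number of roots. -/
def T_NRT : Prop :=
  ∀ (t n : ℤ) (D p : ℕ), p.Prime → t ^ 2 - 4 * n = -(D : ℤ) → (nrt p 1 t n : ℤ) = 1 + ch p D

/-- (GRP) the orders. -/
def T_GRP : Prop :=
  ∀ (K : Type) [Field K] [NumberField K] (D f : ℕ) (G : Type) [CommGroup G]
    (cl : Ideal (𝓞 K) → G), IQ K D → 1 ≤ f → RG K f G cl →
    (Nat.card G : ℝ) = classNumber K * xiD f D ∧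
    ∀ d, d ∣ f → Squarefree d → (Nat.card (Hd K f cl d) : ℤ) = ∏ p ∈ d.primeFactors, npD f p D

/-- (PRC) the characters that are non-trivial on independent subgroups. -/
def T_PRC : Prop :=
  ∀ (G : Type) [CommGroup G] [Finite G] (s : Finset ℕ) (H : ℕ → Subgroup G),
    (∀ t ⊆ s, Nat.card (⨆ p ∈ t, H p : Subgroup G) = ∏ p ∈ t, Nat.card (H p)) →
    (Nat.card {φ : G →* ℂˣ // ∀ p ∈ s, ∃ g ∈ H p, φ g ≠ 1} : ℝ) =
      Nat.card G * ∏ p ∈ s, (1 - 1 / (Nat.card (H p) : ℝ))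

/-- (NPR) the number of primitive characters. -/
def T_NPR : Prop :=
  ∀ (K : Type) [Field K] [NumberField K] (D f : ℕ) (G : Type) [CommGroup G] [Finite G]
    (cl : Ideal (𝓞 K) → G), IQ K D → 1 ≤ f → RG K f G cl →
    (Nat.card {φ : G →* ℂˣ // Prim K f cl φ} : ℝ) = Nat.card G * piD f D

/-- (HGX) the subgroups `Hd` in the form needed for the kernel. -/
def T_HGX : Prop :=
  ∀ (K : Type) [Field K] [NumberField K] (D f : ℕ) (G : Type) [CommGroup G] [Finite G]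
    (cl : Ideal (𝓞 K) → G), IQ K D → 1 ≤ f → RG K f G cl →
    ∃ (n : ℕ → ℕ) (H : ℕ → Subgroup G), HG K f G cl n H ∧
      ∀ p, p.Prime → p ∣ f → (n p : ℤ) = npD f p D

/-! ### Ray class characters -/

/-- the ray class character `χ` corresponds to the character `φ` of the ring class group -/
def Cor {K : Type} [Field K] [NumberField K] (f : ℕ) {G : Type} [CommGroup G]
    (cl : Ideal (𝓞 K) → G) (χ : RCC K) (φ : G →* ℂˣ) : Prop :=
  ∀ I, Pr K f I → χ.ψ I = ((φ (cl I) : ℂˣ) : ℂ)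

/-- (CGR) congruent numbers. -/
def T_CGR : Prop :=
  ∀ (K : Type) [Field K] [NumberField K] (χ : RCC K) (a b : 𝓞 K), a ≠ 0 → b ≠ 0 →
    Ideal.span {a} ⊔ χ.f = ⊤ → a - b ∈ χ.f →
    χ.ψ (Ideal.span {a}) * sg K χ.S b = χ.ψ (Ideal.span {b}) * sg K χ.S a

/-- (CYC) modulo a primitive ideal every number is congruent to an integer. -/
def T_CYC : Prop :=
  ∀ (K : Type) [Field K] [NumberField K], Module.finrank ℚ K = 2 → ∀ I : Ideal (𝓞 K), I ≠ ⊥ →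
    (∀ p : ℕ, p.Prime → ¬ I ≤ Ideal.span {(p : 𝓞 K)}) → ∀ x : 𝓞 K, ∃ n : ℤ, x - n ∈ I

/-- (PPT) the primitive part of an ideal. -/
def T_PPT : Prop :=
  ∀ (K : Type) [Field K] [NumberField K] (I : Ideal (𝓞 K)), I ≠ ⊥ →
    ∃ (f : ℕ) (J : Ideal (𝓞 K)), 1 ≤ f ∧ J ≠ ⊥ ∧ I = Ideal.span {(f : 𝓞 K)} * J ∧
      ∀ p : ℕ, p.Prime → ¬ J ≤ Ideal.span {(p : 𝓞 K)}

/-- (RTG) from ray class characters to characters of the ring class group. -/
def T_RTG : Prop :=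
  ∀ (K : Type) [Field K] [NumberField K] (D f : ℕ) (G : Type) [CommGroup G]
    (cl : Ideal (𝓞 K) → G), IQ K D → 1 ≤ f → RG K f G cl → ∀ χ : RCC K,
    χ.f = Ideal.span {(f : 𝓞 K)} → TrQ χ → ∃ φ : G →* ℂˣ, Prim K f cl φ ∧ Cor f cl χ φ

/-- (PRA) a number as in the definition of primitive characters. -/
def T_PRA : Prop :=
  ∀ (K : Type) [Field K] [NumberField K] (f p : ℕ) (a : 𝓞 K) (P : Ideal (𝓞 K)),
    Module.finrank ℚ K = 2 → 1 ≤ f → p.Prime → p ∣ f → Rat K f (f / p) a → P.IsPrime →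
    (p : 𝓞 K) ∈ P → ∃ m : ℕ, 1 ≤ m ∧ m.Coprime f ∧ ∀ x ∈ P,
      ((m : 𝓞 K) * a - 1) * x ∈ Ideal.span {(f : 𝓞 K)}

/-- (GTR) from primitive characters of the ring class group to ray class characters. -/
def T_GTR : Prop :=
  ∀ (K : Type) [Field K] [NumberField K] (D f : ℕ) (G : Type) [CommGroup G] [Finite G]
    (cl : Ideal (𝓞 K) → G), IQ K D → 1 ≤ f → RG K f G cl → ∀ φ : G →* ℂˣ,
    Prim K f cl φ → ∃ χ : RCC K, χ.f = Ideal.span {(f : 𝓞 K)} ∧ TrQ χ ∧ Cor f cl χ φ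

/-- (BIJ) the bijection. -/
def T_BIJ : Prop :=
  ∀ (K : Type) [Field K] [NumberField K] (D f : ℕ) (G : Type) [CommGroup G] [Finite G]
    (cl : Ideal (𝓞 K) → G), IQ K D → 1 ≤ f → RG K f G cl →
    ∃ e : RQ K f ≃ {φ : G →* ℂˣ // Prim K f cl φ}, ∀ χ : RQ K f, Cor f cl χ.1 (e χ).1

/-- (NVR) non-vanishing for ray class characters. -/
def T_NVR : Prop :=
  ∀ (K : Type) [Field K] [NumberField K] (D f : ℕ) (G : Type) [CommGroup G] [Finite G]
    (cl : Ideal (𝓞 K) → G), IQ K D → Fu D → 1 ≤ f → RG K f G cl → ∀ (χ : RCC K) (φ : G →* ℂˣ),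
    χ.f = Ideal.span {(f : 𝓞 K)} → Cor f cl χ φ → Prim K f cl φ → φ ≠ 1 → NVg K f cl φ → NVc χ

/-- (WWB) the number of the characters that do not vanish at `1/2`. -/
def T_WWB : Prop :=
  ∀ (K : Type) [Field K] [NumberField K] (D f : ℕ) (G : Type) [CommGroup G] [Finite G]
    (cl : Ideal (𝓞 K) → G), IQ K D → Fu D → 1 ≤ f → RG K f G cl →
    (RQ K f).Finite ∧ (nn K f : ℝ) = classNumber K * xiD f D * piD f D ∧
    Nat.card {φ : G →* ℂˣ // Prim K f cl φ ∧ NVg K f cl φ} ≤ ww K f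

/-! ### Real characters -/

/-- (SPG) the prime ideals above a prime number that splits. -/
def T_SPG : Prop :=
  ∀ (K : Type) [Field K] [NumberField K] (D p : ℕ), IQ K D → p.Prime → p ≠ 2 →
    nrt p 1 0 D = 2 → ∃ P P' : Ideal (𝓞 K), P.IsPrime ∧ P'.IsPrime ∧ P ≠ P' ∧
      Ideal.absNorm P = p ∧ Ideal.absNorm P' = p ∧ P * P' = Ideal.span {(p : 𝓞 K)}

/-- (ORG) the order of the class of a prime ideal of small norm. -/
def T_ORG : Prop :=
  ∀ (K : Type) [Field K] [NumberField K] (D p : ℕ), IQ K D → p.Prime → p ≠ 2 →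
    nrt p 1 0 D = 2 → ∃ x : ClassGroup (𝓞 K), ∀ j : ℕ, 1 ≤ j → 4 * p ^ (2 * j) < D →
      x ^ (2 * j) ≠ 1

/-- (SIE) few numbers without small primes that split. -/
def T_SIE : Prop :=
  ∀ (T : Finset ℕ) (Y : ℕ), (∀ p ∈ T, p.Prime ∧ p ≠ 2) →
    (((Finset.range (Y + 1)).filter (fun D : ℕ => ∀ p ∈ T, nrt p 1 0 D ≠ 2)).card : ℝ) ≤
      (∏ p ∈ T, ((p : ℝ) + 1) / (2 * p)) * (Y + 1) + ∏ p ∈ T, (p : ℝ)

/-- (SIP) the product over small primes. -/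
def T_SIP : Prop :=
  ∀ ε : ℝ, 0 < ε → ∃ T : Finset ℕ, (∀ p ∈ T, p.Prime ∧ p ≠ 2) ∧
    ∏ p ∈ T, ((p : ℝ) + 1) / (2 * p) ≤ ε

end Pool.Agent.H37.CF
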