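import Pool.Agent.H31.CF.U3
import Pool.Agent.H19.CN.NRT

/-!
# The local weights: sublattices and translations
-/

set_option autoImplicit false

namespace Pool.Agent.H37.CFU

open Pool.Agent.H31.CN Pool.Agent.H91.CF Pool.Agent.H31.CF
open Pool.Agent.H19.CN (nrt_sub)
open scoped Real Matrix MatrixGroups

theorem nrt_scale (q : ℕ) (hq : 0 < q) (d s A B C : ℤ) (hd : IsCoprime d (q : ℤ))
    (hs : IsCoprime s (q : ℤ)) :
    nrt q (d ^ 2 * A) (d * s * B) (s ^ 2 * C) = nrt q A B C := by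
  obtain ⟨s', w, hw⟩ := hs
  have hs' : IsCoprime s' (q : ℤ) := ⟨s, w, by linarith [mul_comm s s']⟩
  refine nrt_sub q hq A B C _ _ _ (d * s') (s' ^ 2) 0 (hd.mul_left hs') hs'.pow_left ?_ ?_ ?_
  · exact ⟨0, by ring⟩
  · exact ⟨-(B * d * s' * w), by linear_combination (B * d * s') * hw⟩
  · exact ⟨-(C * w * (s' * s + 1)), by linear_combination (C * (s' * s + 1)) * hw⟩

theorem nrt_tr (q : ℕ) (hq : 0 < q) (A B C k : ℤ) :
    nrt q A (B + 2 * A * k) (C + B * k + A * k ^ 2) = nrt q A B C :=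
  nrt_sub q hq A B C _ _ _ 1 1 k isCoprime_one_left isCoprime_one_left ⟨0, by ring⟩ ⟨0, by ring⟩
    ⟨0, by ring⟩

theorem nrt_tr' (q : ℕ) (hq : 0 < q) (A B C k : ℤ) :
    nrt q A (B + 2 * (q * A) * k) (q * (C + B * k + q * A * k ^ 2)) = nrt q A B (q * C) :=
  nrt_sub q hq A B (q * C) _ _ _ 1 1 (q * k) isCoprime_one_left isCoprime_one_left ⟨0, by ring⟩
    ⟨0, by ring⟩ ⟨0, by ring⟩

theorem pf_NWS : T_NWS := by
  intro m₁ m₂ A e B C _
  constructor
  · intro d s _ _ hcop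
    have hp : ∀ p ∈ (m₁ * m₂).primeFactors, p.Prime ∧ Nat.Coprime p d ∧ Nat.Coprime p s := by
      intro p hp
      have h1 := (Nat.mem_primeFactors.1 hp)
      have h2 : Nat.Coprime p (d * s) := Nat.Coprime.coprime_dvd_left h1.2.1 hcop
      exact ⟨h1.1, Nat.Coprime.coprime_mul_right_right h2, Nat.Coprime.coprime_mul_left_right h2⟩
    have hdv : ∀ p ∈ (m₁ * m₂).primeFactors, (p ∣ d ^ 2 * A ↔ p ∣ A) ∧
        (p ^ 2 ∣ d ^ 2 * A ↔ p ^ 2 ∣ A) := by
      intro p hpm
      obtain ⟨_, h2, _⟩ := hp p hpm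
      exact ⟨(h2.pow_right 2).dvd_mul_left, (h2.pow 2 2).dvd_mul_left⟩
    constructor
    · unfold Nw
      refine Finset.prod_congr rfl fun p hpm => ?_
      obtain ⟨hpp, h2, h3⟩ := hp p hpm
      obtain ⟨h4, h5⟩ := hdv p hpm
      have hdz : IsCoprime (d : ℤ) (p : ℤ) := Nat.isCoprime_iff_coprime.2 h2.symm
      have hsz : IsCoprime (s : ℤ) (p : ℤ) := Nat.isCoprime_iff_coprime.2 h3.symm
      have hdz2 : IsCoprime (d : ℤ) ((p ^ 2 : ℕ) : ℤ) := by
        push_cast
        exact hdz.pow_right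
      have hsz2 : IsCoprime (s : ℤ) ((p ^ 2 : ℕ) : ℤ) := by
        push_cast
        exact hsz.pow_right
      have hn1 : nrt p ((d ^ 2 * A : ℕ) : ℤ) (d * s * B) (s ^ 2 * C) = nrt p A B C := by
        push_cast
        exact nrt_scale p hpp.pos d s A B C hdz hsz
      have hn2 : nrt (p ^ 2) ((d ^ 2 * A : ℕ) : ℤ) (d * s * B) (s ^ 2 * C) =
          nrt (p ^ 2) A B C := by
        have h6 := nrt_scale (p ^ 2) (pow_pos hpp.pos 2) d s A B C hdz2 hsz2
        rw [← h6]
        push_cast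
        rfl
      have hn3 : p ∣ A → nrt p (((d ^ 2 * A) / p : ℕ) : ℤ) (d * s * B) (p * (s ^ 2 * C)) =
          nrt p ((A / p : ℕ) : ℤ) B (p * C) := by
        rintro ⟨A', rfl⟩
        have h6 : d ^ 2 * (p * A') / p = d ^ 2 * A' := by
          rw [show d ^ 2 * (p * A') = p * (d ^ 2 * A') by ring]
          exact Nat.mul_div_cancel_left _ hpp.pos
        rw [h6, Nat.mul_div_cancel_left _ hpp.pos]
        have h7 := nrt_scale p hpp.pos d s A' B (p * C) hdz hsz
        rw [← h7]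
        push_cast
        rw [show (p : ℤ) * ((s : ℤ) ^ 2 * C) = (s : ℤ) ^ 2 * (p * C) by ring]
      unfold N1 N2
      rw [hn1, hn2]
      by_cases hA : p ∣ A
      · simp only [h4, h5, hn3 hA]
      · simp only [h4, h5, hA, false_and, if_false]
    · unfold Nb
      refine Finset.prod_congr rfl fun p hpm => ?_
      obtain ⟨h4, h5⟩ := hdv p hpm
      simp only [h4, h5]
  · intro k
    unfold Nw
    refine Finset.prod_congr rfl fun p hpm => ?_
    have hpp := (Nat.mem_primeFactors.1 hpm).1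
    have hn1 := nrt_tr p hpp.pos A B C k
    have hn2 := nrt_tr (p ^ 2) (pow_pos hpp.pos 2) A B C k
    have hn3 : p ∣ A → nrt p ((A / p : ℕ) : ℤ) (B + 2 * A * k) (p * (C + B * k + A * k ^ 2)) =
        nrt p ((A / p : ℕ) : ℤ) B (p * C) := by
      rintro ⟨A', rfl⟩
      rw [Nat.mul_div_cancel_left _ hpp.pos]
      have h7 := nrt_tr' p hpp.pos A' B C k
      rw [← h7]
      push_cast
      rfl
    unfold N1 N2
    rw [hn1, hn2]
    by_cases hA : p ∣ A
    · rw [hn3 hA]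
    · simp only [hA, false_and, if_false]

end Pool.Agent.H37.CFU
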