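import Pool.Agent.H37.CF.Basic

/-!
# Every ideal class contains an ideal prime to `f`
-/

set_option autoImplicit false

open NumberField
open scoped nonZeroDivisors

namespace Pool.Agent.H37.CF

open Pool.Agent.H31.CN Pool.Agent.H95.CF

theorem pf_CPI : T_CPI := by
  intro K _ _ f c hf
  obtain ⟨J, hJ⟩ := ClassGroup.mk0_surjective c⁻¹
  have hJ0 : (J : Ideal (𝓞 K)) ≠ ⊥ := nonZeroDivisors.coe_ne_zero J
  have hf0 : Ideal.span {(f : 𝓞 K)} ≠ ⊥ := by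
    rw [Ne, Ideal.span_singleton_eq_bot]
    have h1 : f ≠ 0 := by omega
    exact_mod_cast h1
  by_cases htop : Ideal.span {(f : 𝓞 K)} = ⊤
  · obtain ⟨I, hI⟩ := ClassGroup.mk0_surjective c
    exact ⟨I, ⟨nonZeroDivisors.coe_ne_zero I, by rw [htop, sup_top_eq]⟩, hI⟩
  · obtain ⟨a, ha⟩ := IsDedekindDomain.exists_sup_span_eq
      (I := Ideal.span {(f : 𝓞 K)} * (J : Ideal (𝓞 K))) (J := (J : Ideal (𝓞 K))) Ideal.mul_le_right
      (mul_ne_zero hf0 hJ0)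
    have haJ : Ideal.span {a} ≤ (J : Ideal (𝓞 K)) := ha ▸ le_sup_right
    obtain ⟨I, hI⟩ := Ideal.dvd_iff_le.2 haJ
    have ha0 : a ≠ 0 := by
      rintro rfl
      rw [Ideal.span_singleton_eq_bot.2 rfl, sup_bot_eq] at ha
      apply htop
      have h1 : Ideal.span {(f : 𝓞 K)} * (J : Ideal (𝓞 K)) = ⊤ * J := by rw [ha, Ideal.top_mul]
      exact mul_right_cancel₀ hJ0 h1
    have hI0 : I ≠ ⊥ := by
      rintro rfl
      rw [Ideal.mul_bot, Ideal.span_singleton_eq_bot] at hI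
      exact ha0 hI
    have h2 : Ideal.span {(f : 𝓞 K)} ⊔ I = ⊤ := by
      rw [hI, mul_comm (J : Ideal (𝓞 K)) I, ← Ideal.sup_mul] at ha
      have h3 : (Ideal.span {(f : 𝓞 K)} ⊔ I) * (J : Ideal (𝓞 K)) = ⊤ * J := by
        rw [ha, Ideal.top_mul]
      exact mul_right_cancel₀ hJ0 h3
    refine ⟨⟨I, mem_nonZeroDivisors_of_ne_zero hI0⟩, ⟨hI0, by rw [sup_comm]; exact h2⟩, ?_⟩
    have h3 : ClassGroup.mk0 (J * ⟨I, mem_nonZeroDivisors_of_ne_zero hI0⟩) = 1 := by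
      rw [ClassGroup.mk0_eq_one_iff]
      show ((J : Ideal (𝓞 K)) * I).IsPrincipal
      rw [← hI]
      exact ⟨⟨a, rfl⟩⟩
    rw [map_mul, hJ] at h3
    exact (inv_mul_eq_one.1 h3).symm

end Pool.Agent.H37.CF
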