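import Pool.Agent.H37.CF.Basic

/-!
# Modulo a primitive ideal every number is congruent to an integer
-/

set_option autoImplicit false

open NumberField
open scoped nonZeroDivisors

namespace Pool.Agent.H37.CF

open Pool.Agent.H31.CN Pool.Agent.H95.CF
open Pool.Agent.H24.Cls (Quad)

theorem pf_CYC : T_CYC := by
  intro K _ _ hK I hI hp x
  obtain ⟨Q, _⟩ := Pool.Agent.H24.Cls.exists_quad K hK
  -- the subgroup of the second coordinates
  let S : Submodule ℤ ℤ :=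
    { carrier := {c : ℤ | ∃ b : ℤ, (b : 𝓞 K) + c * Q.w ∈ I}
      add_mem' := by
        rintro c c' ⟨b, hb⟩ ⟨b', hb'⟩
        refine ⟨b + b', ?_⟩
        have h1 := I.add_mem hb hb'
        have h2 : ((b + b' : ℤ) : 𝓞 K) + ((c + c' : ℤ) : 𝓞 K) * Q.w =
          (b + c * Q.w) + (b' + c' * Q.w) := by push_cast; ring
        rw [h2]
        exact h1
      zero_mem' := ⟨0, by simp⟩
      smul_mem' := by
        rintro z c ⟨b, hb⟩
        refine ⟨z * b, ?_⟩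
        have h2 : ((z * b : ℤ) : 𝓞 K) + ((z • c : ℤ) : 𝓞 K) * Q.w =
          z * (b + c * Q.w) := by rw [smul_eq_mul]; push_cast; ring
        rw [h2]
        exact I.mul_mem_left _ hb }
  have hS : ∀ c : ℤ, c ∈ S ↔ ∃ b : ℤ, (b : 𝓞 K) + c * Q.w ∈ I := fun c => Iff.rfl
  obtain ⟨c₀, hc₀⟩ := (IsPrincipalIdealRing.principal S).principal
  have hmem : ∀ c : ℤ, c ∈ S ↔ c₀ ∣ c := fun c => by
    rw [hc₀]
    exact Submodule.mem_span_singleton.trans ⟨fun ⟨a, ha⟩ => ⟨a, by rw [← ha, smul_eq_mul, mul_comm]⟩,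
      fun ⟨a, ha⟩ => ⟨a, by rw [ha, smul_eq_mul, mul_comm]⟩⟩
  obtain ⟨b₀, hb₀⟩ := (hS c₀).1 ((hmem c₀).2 (dvd_refl _))
  -- (i)
  have h1 : ∀ n : ℤ, (n : 𝓞 K) ∈ I → c₀ ∣ n := by
    intro n hn
    rw [← hmem, hS]
    refine ⟨0, ?_⟩
    rw [Int.cast_zero, zero_add]
    exact I.mul_mem_right _ hn
  -- (ii)
  have h2 : c₀ ∣ b₀ := by
    have h3 : ((-c₀ * Q.n : ℤ) : 𝓞 K) + ((b₀ + c₀ * Q.t : ℤ) : 𝓞 K) * Q.w ∈ I := by
      have h4 := I.mul_mem_right Q.w hb₀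
      have h5 : ((-c₀ * Q.n : ℤ) : 𝓞 K) + ((b₀ + c₀ * Q.t : ℤ) : 𝓞 K) * Q.w =
          (b₀ + c₀ * Q.w) * Q.w := by
        push_cast
        linear_combination (-(c₀ : 𝓞 K)) * Q.eqn
      rw [h5]
      exact h4
    have h6 := (hmem _).1 ((hS _).2 ⟨_, h3⟩)
    exact (dvd_add_left (dvd_mul_right _ _)).1 h6
  -- (iii)
  have h3 : ∀ u v : ℤ, (u : 𝓞 K) + v * Q.w ∈ I → c₀ ∣ u ∧ c₀ ∣ v := by
    intro u v huv
    have hv := (hmem _).1 ((hS _).2 ⟨_, huv⟩)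
    obtain ⟨k, rfl⟩ := hv
    have h4 : ((u - k * b₀ : ℤ) : 𝓞 K) ∈ I := by
      have h5 : ((u - k * b₀ : ℤ) : 𝓞 K) = (u + ((c₀ * k : ℤ) : 𝓞 K) * Q.w) -
          k * (b₀ + c₀ * Q.w) := by
        push_cast
        ring
      rw [h5]
      exact I.sub_mem huv (I.mul_mem_left _ hb₀)
    have h5 := h1 _ h4
    have h6 : c₀ ∣ (u - k * b₀) + k * b₀ := dvd_add h5 (h2.mul_left _)
    rw [sub_add_cancel] at h6
    exact ⟨h6, dvd_mul_right _ _⟩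
  have hN : (Ideal.absNorm I : ℤ) ≠ 0 := by
    have h4 : Ideal.absNorm I ≠ 0 := by
      rw [Ne, Ideal.absNorm_eq_zero_iff]
      exact hI
    exact_mod_cast h4
  have hc0 : c₀ ≠ 0 := by
    rintro rfl
    have h4 := h1 (Ideal.absNorm I : ℤ) (by
      rw [Int.cast_natCast]
      exact Ideal.absNorm_mem I)
    exact hN (zero_dvd_iff.1 h4)
  have hunit : IsUnit c₀ := by
    by_contra hcon
    obtain ⟨p, hp1, hp2⟩ := Int.exists_prime_and_dvd (n := c₀) (by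
      rwa [Ne, ← Int.isUnit_iff_natAbs_eq])
    have hpn : (p.natAbs).Prime := Int.prime_iff_natAbs_prime.1 hp1
    apply hp _ hpn
    intro y hy
    obtain ⟨u, v, rfl⟩ := Q.gen y
    obtain ⟨hu, hv⟩ := h3 u v hy
    obtain ⟨k, hk⟩ := (Int.natAbs_dvd.2 (hp2.trans hu))
    obtain ⟨l, hl⟩ := (Int.natAbs_dvd.2 (hp2.trans hv))
    generalize p.natAbs = q at hk hl
    refine mem_fspan.2 ⟨k + l * Q.w, ?_⟩
    rw [hk, hl]
    push_cast
    ring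
  obtain ⟨u, v, rfl⟩ := Q.gen x
  obtain ⟨k, hk⟩ := hunit.dvd (a := v)
  refine ⟨u - k * b₀, ?_⟩
  have h5 : (u : 𝓞 K) + v * Q.w - ((u - k * b₀ : ℤ) : 𝓞 K) = k * (b₀ + c₀ * Q.w) := by
    rw [hk]
    push_cast
    ring
  rw [h5]
  exact I.mul_mem_left _ hb₀

end Pool.Agent.H37.CF
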