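import Pool.Agent.H37.CF.Basic

/-!
# The classes of numbers
-/

set_option autoImplicit false

open NumberField
open scoped nonZeroDivisors

namespace Pool.Agent.H37.CF

open Pool.Agent.H31.CN Pool.Agent.H95.CF

theorem pf_EQP (hUNI : T_UNI) : T_EQP := by
  intro K _ _ D f G _ cl hK hf h a b ha hb
  constructor
  · intro he
    rw [h.eqv _ _ ha hb] at he
    obtain ⟨x, y, hx, hy, hxy⟩ := he
    rw [Ideal.span_singleton_mul_span_singleton, Ideal.span_singleton_mul_span_singleton,
      Ideal.span_singleton_eq_span_singleton] at hxy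
    obtain ⟨u, hu⟩ := hxy
    obtain ⟨hx1, n, hn⟩ := hx
    obtain ⟨hy1, m, hm⟩ := hy
    have hn1 := int_coprime (dvd_refl f) hx1 hn
    have hm1 := int_coprime (dvd_refl f) hy1 hm
    obtain ⟨z, w, hzw⟩ := hn1
    have hz1 : IsCoprime z (f : ℤ) := ⟨n, w, by linarith [mul_comm z n]⟩
    have hcast : (z : 𝓞 K) * n + w * f = 1 := by exact_mod_cast congrArg (Int.cast : ℤ → 𝓞 K) hzw
    have key : ∀ e : ℤ, (e = 1 ∨ e = -1) → x * a = e * (y * b) →
        ∃ r : ℤ, IsCoprime r (f : ℤ) ∧ a - r * b ∈ Ideal.span {(f : 𝓞 K)} := by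
      intro e he1 he2
      refine ⟨z * e * m, ?_, ?_⟩
      · refine IsCoprime.mul_left (IsCoprime.mul_left hz1 ?_) hm1
        rcases he1 with rfl | rfl
        · exact isCoprime_one_left
        · exact isCoprime_one_left.neg_left
      · have h1 : a - ((z * e * m : ℤ) : 𝓞 K) * b =
            w * a * f - z * (a * (x - n)) + z * e * (b * (y - m)) := by
          push_cast
          linear_combination (-a) * hcast + z * he2
        rw [h1]
        refine Ideal.add_mem _ (Ideal.sub_mem _ ?_ ?_) ?_
        · exact Ideal.mul_mem_left _ _ (Ideal.mem_span_singleton_self _)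
        · exact Ideal.mul_mem_left _ _ (Ideal.mul_mem_left _ _ hn)
        · exact Ideal.mul_mem_left _ _ (Ideal.mul_mem_left _ _ hm)
    rcases (hUNI K D hK).1 u with hu1 | hu1
    · refine key 1 (Or.inl rfl) ?_
      rw [← hu, hu1]
      simp
    · refine key (-1) (Or.inr rfl) ?_
      rw [← hu, hu1]
      simp
  · rintro ⟨r, _, hr⟩
    exact cl_congr h ha hb hr

end Pool.Agent.H37.CF
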