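import Pool.Agent.H37.CF.Basic

/-!
# The number of classes in `Hd`
-/

set_option autoImplicit false
set_option linter.unusedSectionVars false

open NumberField
open scoped nonZeroDivisors

namespace Pool.Agent.H37.CF

open Pool.Agent.H31.CN Pool.Agent.H95.CF
open Pool.Agent.H24.Cls (Quad)

section

variable {K : Type} [Field K] [NumberField K] (Q : Quad (𝓞 K)) {f d : ℕ}

theorem coord_mem {a b : ℤ} : (a : 𝓞 K) + b * Q.w ∈ Ideal.span {(f : 𝓞 K)} ↔
    (f : ℤ) ∣ a ∧ (f : ℤ) ∣ b := by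
  constructor
  · intro h
    obtain ⟨c, hc⟩ := mem_fspan.1 h
    obtain ⟨u, v, rfl⟩ := Q.gen c
    have h1 : (a : 𝓞 K) + b * Q.w = ((f * u : ℤ) : 𝓞 K) + ((f * v : ℤ) : 𝓞 K) * Q.w := by
      rw [hc]
      push_cast
      ring
    obtain ⟨h2, h3⟩ := Q.ext h1
    exact ⟨⟨u, h2⟩, ⟨v, h3⟩⟩
  · rintro ⟨⟨u, rfl⟩, ⟨v, rfl⟩⟩
    refine mem_fspan.2 ⟨u + v * Q.w, ?_⟩
    push_cast
    ring

/-- the number `x + f + y w` -/
noncomputable def zv (f : ℕ) (v : ℕ × ℕ) : 𝓞 K := (((v.1 : ℤ) + f : ℤ) : 𝓞 K) + (v.2 : ℤ) * Q.w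

theorem zv_ne (hf : 1 ≤ f) (v : ℕ × ℕ) : zv Q f v ≠ 0 := by
  intro h
  have h1 := (Q.ind _ _ h).1
  omega

/-- the value of the norm form -/
def vl (t n x y : ℤ) : ℤ := x ^ 2 + t * x * y + n * y ^ 2

theorem vl_congr {t n x y x' y' m : ℤ} (hx : m ∣ x - x') (hy : m ∣ y - y') :
    m ∣ vl t n x y - vl t n x' y' := by
  obtain ⟨a, ha⟩ := hx
  obtain ⟨b, hb⟩ := hy
  have h1 : x = x' + m * a := by linarith
  have h2 : y = y' + m * b := by linarith
  subst h1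
  subst h2
  refine ⟨2 * x' * a + m * a ^ 2 + t * (x' * b + a * y' + m * a * b) + n * (2 * y' * b + m * b ^ 2),
    ?_⟩
  unfold vl
  ring

theorem gcd_congr {a b : ℤ} (h : (f : ℤ) ∣ a - b) : Int.gcd a f = Int.gcd b f := by
  obtain ⟨c, hc⟩ := h
  have h1 : a = b + f * c := by linarith
  rw [h1, Int.gcd_add_mul_left_left]

theorem pr_coord (hCOP : T_COP) (a b : ℤ) (h0 : (a : 𝓞 K) + b * Q.w ≠ 0) :
    Pr K f (Ideal.span {(a : 𝓞 K) + b * Q.w}) ↔ Int.gcd (vl Q.t Q.n a b) f = 1 := by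
  have h1 : Ideal.span {(a : 𝓞 K) + b * Q.w} ≠ ⊥ := by rwa [Ne, Ideal.span_singleton_eq_bot]
  have h2 := hCOP K f _ h1
  rw [Ideal.absNorm_span_singleton, Q.norm_eq] at h2
  constructor
  · intro h
    exact h2.1 h.2
  · intro h
    exact ⟨h1, h2.2 h⟩

variable {G : Type} [CommGroup G] {cl : Ideal (𝓞 K) → G}

theorem pr_zv (hCOP : T_COP) (hf : 1 ≤ f) {v : ℕ × ℕ} (hv : v ∈ prs Q.t Q.n f d) :
    Pr K f (Ideal.span {zv Q f v}) := by
  have h1 := (Finset.mem_filter.1 hv).2.2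
  have h2 := (pr_coord (f := f) Q hCOP ((v.1 : ℤ) + f) v.2 (zv_ne Q hf v))
  refine h2.2 ?_
  rw [← h1]
  refine gcd_congr ?_
  exact vl_congr ⟨1, by ring⟩ ⟨0, by ring⟩

/-- the residue of an element with value prime to `f` is in `prs` -/
theorem red_mem (hf : 1 ≤ f) (hd : d ∣ f) {a b : ℤ} (hb : ((f / d : ℕ) : ℤ) ∣ b)
    (hg : Int.gcd (vl Q.t Q.n a b) f = 1) :
    ((a % f).toNat, (b % f).toNat) ∈ prs Q.t Q.n f d := by
  have hf' : (0 : ℤ) < f := by exact_mod_cast hf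
  have h1 := Int.emod_nonneg a hf'.ne'
  have h2 := Int.emod_nonneg b hf'.ne'
  have h3 := Int.emod_lt_of_pos a hf'
  have h4 := Int.emod_lt_of_pos b hf'
  have h5 : ((a % f).toNat : ℤ) = a % f := Int.toNat_of_nonneg h1
  have h6 : ((b % f).toNat : ℤ) = b % f := Int.toNat_of_nonneg h2
  unfold prs
  rw [Finset.mem_filter, Finset.mem_product, Finset.mem_range, Finset.mem_range]
  refine ⟨⟨by dsimp only; omega, by dsimp only; omega⟩, ?_, ?_⟩
  · have h7 : ((f / d : ℕ) : ℤ) ∣ ((b % f).toNat : ℤ) := by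
      rw [h6]
      have h8 : ((f / d : ℕ) : ℤ) ∣ (f : ℤ) := Int.natCast_dvd_natCast.2 (Nat.div_dvd_of_dvd hd)
      rw [Int.emod_def]
      exact dvd_sub hb (h8.mul_right _)
    exact_mod_cast h7
  · rw [← hg]
    refine gcd_congr ?_
    show (f : ℤ) ∣ vl Q.t Q.n ((a % f).toNat : ℤ) ((b % f).toNat : ℤ) - _
    refine vl_congr ?_ ?_
    · rw [h5]
      exact ⟨-(a / f), by rw [Int.emod_def]; ring⟩
    · rw [h6]
      exact ⟨-(b / f), by rw [Int.emod_def]; ring⟩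

theorem zv_red (hf : 1 ≤ f) (a b : ℤ) :
    (a : 𝓞 K) + b * Q.w - zv Q f ((a % f).toNat, (b % f).toNat) ∈ Ideal.span {(f : 𝓞 K)} := by
  have hf' : (0 : ℤ) < f := by exact_mod_cast hf
  have h5 : ((a % f).toNat : ℤ) = a % f := Int.toNat_of_nonneg (Int.emod_nonneg a hf'.ne')
  have h6 : ((b % f).toNat : ℤ) = b % f := Int.toNat_of_nonneg (Int.emod_nonneg b hf'.ne')
  have h7 : (a : 𝓞 K) + b * Q.w - zv Q f ((a % f).toNat, (b % f).toNat) =
      ((a - (a % f + f) : ℤ) : 𝓞 K) + ((b - b % f : ℤ) : 𝓞 K) * Q.w := by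
    unfold zv
    dsimp only
    rw [h5, h6]
    push_cast
    ring
  rw [h7, coord_mem]
  refine ⟨⟨a / f - 1, ?_⟩, ⟨b / f, ?_⟩⟩
  · rw [Int.emod_def]; ring
  · rw [Int.emod_def]; ring

end

theorem pf_HDC (hCOP : T_COP) (hEQP : T_EQP) : T_HDC := by
  intro K _ _ D f G _ cl Q d hK hf h hd
  classical
  have hf' : (0 : ℤ) < f := by exact_mod_cast hf
  let F : ℕ × ℕ → G := fun v => cl (Ideal.span {zv Q f v})
  -- the image
  have himg : ((prs Q.t Q.n f d).image F : Set G) = Hd K f cl d := by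
    ext g
    simp only [Finset.coe_image, Set.mem_image, Finset.mem_coe]
    constructor
    · rintro ⟨v, hv, rfl⟩
      refine ⟨zv Q f v, ⟨pr_zv Q hCOP hf hv, (v.1 : ℤ) + f, ?_⟩, rfl⟩
      have h1 : zv Q f v - (((v.1 : ℤ) + f : ℤ) : 𝓞 K) =
          ((0 : ℤ) : 𝓞 K) + ((v.2 : ℤ) : 𝓞 K) * Q.w := by
        unfold zv
        push_cast
        ring
      rw [h1, coord_mem]
      exact ⟨dvd_zero _, Int.natCast_dvd_natCast.2 (Finset.mem_filter.1 hv).2.1⟩
    · rintro ⟨a, ⟨ha, k, hk⟩, rfl⟩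
      obtain ⟨A, B, rfl⟩ := Q.gen a
      have h1 : (A : 𝓞 K) + B * Q.w - (k : 𝓞 K) = ((A - k : ℤ) : 𝓞 K) + (B : 𝓞 K) * Q.w := by
        push_cast
        ring
      rw [h1, coord_mem] at hk
      have h2 : Int.gcd (vl Q.t Q.n A B) f = 1 := (pr_coord Q hCOP A B (pr_ne ha)).1 ha
      have h3 := red_mem Q hf hd hk.2 h2
      refine ⟨_, h3, ?_⟩
      refine (cl_congr h ha (pr_zv Q hCOP hf h3) (r := 1) ?_).symm
      rw [Int.cast_one, one_mul]
      exact zv_red Q hf A B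
  -- the fibres
  have hfib : ∀ g ∈ (prs Q.t Q.n f d).image F,
      ((prs Q.t Q.n f d).filter (fun v => F v = g)).card = f.totient := by
    intro g hg
    obtain ⟨v₀, hv₀, rfl⟩ := Finset.mem_image.1 hg
    have hp0 := pr_zv Q hCOP hf hv₀
    obtain ⟨c, hc, hc1⟩ := ex_inv hp0
    have h0 := Finset.mem_filter.1 hv₀
    rw [Nat.totient_eq_card_coprime]
    symm
    have hzr : ∀ r : ℤ, (((r * ((v₀.1 : ℤ) + f) : ℤ)) : 𝓞 K) + ((r * (v₀.2 : ℤ) : ℤ) : 𝓞 K) * Q.w =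
        r * zv Q f v₀ := by
      intro r
      unfold zv
      push_cast
      ring
    have hval : ∀ r : ℤ, IsCoprime r (f : ℤ) → Int.gcd (vl Q.t Q.n (r * ((v₀.1 : ℤ) + f))
        (r * (v₀.2 : ℤ))) f = 1 := by
      intro r hr
      have h1 : vl Q.t Q.n (r * ((v₀.1 : ℤ) + f)) (r * (v₀.2 : ℤ)) =
          r ^ 2 * vl Q.t Q.n ((v₀.1 : ℤ) + f) v₀.2 := by
        unfold vl
        ring
      rw [h1, ← Int.isCoprime_iff_gcd_eq_one]
      refine IsCoprime.mul_left (hr.pow_left) ?_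
      rw [Int.isCoprime_iff_gcd_eq_one]
      exact (pr_coord Q hCOP _ _ (zv_ne Q hf v₀)).1 hp0
    have hint : ∀ k : ℤ, (k : 𝓞 K) ∈ Ideal.span {(f : 𝓞 K)} → (f : ℤ) ∣ k := by
      intro k hk
      have h1 : (k : 𝓞 K) = (k : 𝓞 K) + ((0 : ℤ) : 𝓞 K) * Q.w := by
        rw [Int.cast_zero, zero_mul, add_zero]
      rw [h1, coord_mem] at hk
      exact hk.1
    have hcan : ∀ r s : ℤ, (r : 𝓞 K) * zv Q f v₀ - s * zv Q f v₀ ∈ Ideal.span {(f : 𝓞 K)} →
        (f : ℤ) ∣ r - s := by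
      intro r s hrs
      apply hint
      have h1 : ((r - s : ℤ) : 𝓞 K) = c * (r * zv Q f v₀ - s * zv Q f v₀) -
          (r - s) * (zv Q f v₀ * c - 1) := by
        push_cast
        ring
      rw [h1]
      exact Ideal.sub_mem _ (Ideal.mul_mem_left _ _ hrs) (Ideal.mul_mem_left _ _ hc1)
    have hzred := fun r : ℤ => zv_red Q hf (r * ((v₀.1 : ℤ) + f)) (r * (v₀.2 : ℤ))
    refine Finset.card_bij (fun r _ => (((r : ℤ) * ((v₀.1 : ℤ) + f) % f).toNat,
      ((r : ℤ) * (v₀.2 : ℤ) % f).toNat)) ?_ ?_ ?_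
    · intro r hr
      rw [Finset.mem_filter] at hr
      have hrc : IsCoprime (r : ℤ) (f : ℤ) := Nat.isCoprime_iff_coprime.2 hr.2.symm
      have h1 : ((f / d : ℕ) : ℤ) ∣ (r : ℤ) * (v₀.2 : ℤ) :=
        (Int.natCast_dvd_natCast.2 h0.2.1).mul_left _
      have h2 := red_mem Q hf hd h1 (hval r hrc)
      rw [Finset.mem_filter]
      refine ⟨h2, ?_⟩
      refine cl_congr h (pr_zv Q hCOP hf h2) hp0 (r := (r : ℤ)) ?_
      have h3 := hzred r
      rw [hzr] at h3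
      have h4 := (Ideal.neg_mem_iff _).2 h3
      rwa [neg_sub] at h4
    · intro r hr s hs hrs
      rw [Finset.mem_filter, Finset.mem_range] at hr hs
      have h1 := hzred r
      have h2 := hzred s
      rw [hzr] at h1 h2
      simp only [Prod.mk.injEq] at hrs
      rw [hrs.1, hrs.2] at h1
      have h3 := Ideal.sub_mem _ h1 h2
      rw [sub_sub_sub_cancel_right] at h3
      have h4 := hcan r s h3
      have h5 : (r : ℤ) ≡ s [ZMOD f] := (Int.modEq_iff_dvd.2 (by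
        have := (dvd_neg.2 h4)
        rwa [neg_sub] at this))
      have h6 : r ≡ s [MOD f] := by exact_mod_cast h5
      exact Nat.ModEq.eq_of_lt_of_lt h6 hr.1 hs.1
    · intro v hv
      rw [Finset.mem_filter] at hv
      obtain ⟨hv1, hv2⟩ := hv
      obtain ⟨r, hr, hrv⟩ := (hEQP K D f G cl hK hf h _ _ (pr_zv Q hCOP hf hv1) hp0).1 hv2
      have hr0 := Int.emod_nonneg r hf'.ne'
      have hr1 := Int.emod_lt_of_pos r hf'
      have hrr : ((r % f).toNat : ℤ) = r % f := Int.toNat_of_nonneg hr0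
      have hmod : (f : ℤ) ∣ r - r % f := ⟨r / f, by rw [Int.emod_def]; ring⟩
      refine ⟨(r % f).toNat, ?_, ?_⟩
      · rw [Finset.mem_filter, Finset.mem_range]
        refine ⟨by omega, ?_⟩
        rw [Nat.coprime_comm, ← Nat.isCoprime_iff_coprime, hrr]
        obtain ⟨x, y, hxy⟩ := hr
        obtain ⟨z, hz⟩ := hmod
        exact ⟨x, y + x * z, by linear_combination hxy - x * hz⟩
      · have h1 : zv Q f v - ((r % f : ℤ) : 𝓞 K) * zv Q f v₀ ∈ Ideal.span {(f : 𝓞 K)} := by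
          have h2 : zv Q f v - ((r % f : ℤ) : 𝓞 K) * zv Q f v₀ =
              (zv Q f v - r * zv Q f v₀) + ((r - r % f : ℤ) : 𝓞 K) * zv Q f v₀ := by
            push_cast
            ring
          rw [h2]
          exact Ideal.add_mem _ hrv (Ideal.mul_mem_right _ _ (fspan_int hmod))
        rw [← hzr] at h1
        have h3 : zv Q f v - ((((r % f) * ((v₀.1 : ℤ) + f) : ℤ) : 𝓞 K) +
            (((r % f) * (v₀.2 : ℤ) : ℤ) : 𝓞 K) * Q.w) =
            (((v.1 : ℤ) + f - (r % f) * ((v₀.1 : ℤ) + f) : ℤ) : 𝓞 K) +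
            (((v.2 : ℤ) - (r % f) * (v₀.2 : ℤ) : ℤ) : 𝓞 K) * Q.w := by
          unfold zv
          push_cast
          ring
        rw [h3, coord_mem] at h1
        have hv3 := (Finset.mem_filter.1 hv1).1
        rw [Finset.mem_product, Finset.mem_range, Finset.mem_range] at hv3
        have hx : ((r % f) * ((v₀.1 : ℤ) + f)) % f = v.1 := by
          have h4 : (f : ℤ) ∣ (v.1 : ℤ) - (r % f) * ((v₀.1 : ℤ) + f) := by
            have h5 := dvd_sub h1.1 (dvd_refl (f : ℤ))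
            have h6 : (v.1 : ℤ) + f - (r % f) * ((v₀.1 : ℤ) + f) - f =
              (v.1 : ℤ) - (r % f) * ((v₀.1 : ℤ) + f) := by ring
            rwa [h6] at h5
          have h7 : ((r % f) * ((v₀.1 : ℤ) + f)) ≡ (v.1 : ℤ) [ZMOD f] := Int.modEq_iff_dvd.2 h4
          have h8 : (v.1 : ℤ) % f = v.1 := Int.emod_eq_of_lt (by omega) (by exact_mod_cast hv3.1)
          rw [← h8]
          exact h7
        have hy : ((r % f) * (v₀.2 : ℤ)) % f = v.2 := by
          have h7 : ((r % f) * (v₀.2 : ℤ)) ≡ (v.2 : ℤ) [ZMOD f] := Int.modEq_iff_dvd.2 h1.2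
          have h8 : (v.2 : ℤ) % f = v.2 := Int.emod_eq_of_lt (by omega) (by exact_mod_cast hv3.2)
          rw [← h8]
          exact h7
        rw [hrr, hx, hy]
        rfl
  have hcard : (prs Q.t Q.n f d).card = ((prs Q.t Q.n f d).image F).card * f.totient := by
    rw [Finset.card_eq_sum_card_image F, Finset.sum_congr rfl hfib, Finset.sum_const, smul_eq_mul]
  rw [hcard, ← himg]
  congr 1
  simp

end Pool.Agent.H37.CF
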