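import Pool.Agent.H37.CF.Basic

/-!
# Non-vanishing for ray class characters
-/

set_option autoImplicit false

open NumberField
open scoped nonZeroDivisors

namespace Pool.Agent.H37.CF

open Pool.Agent.H31.CN Pool.Agent.H95.CF Pool.Agent.H28.RC
open Pool.Agent.H91.CF (Fu NVc)

theorem pf_NVR (hLFE : Pool.Agent.H95.CF.T_LFE) (hPCT : Pool.Agent.H95.CF.T_PCT) : T_NVR := by
  intro K _ _ D f G _ _ cl hK hD hf h χ φ hχ hcor hprim hne hnv
  obtain ⟨F, hF, hF2⟩ := hnv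
  obtain ⟨E, hE1, hE2⟩ := hLFE D K f G cl φ F hK.big hK.deg hK.dis (hPCT D hD).1 hf h hprim hne hF
  refine ⟨E, hE1, ?_, ?_⟩
  · intro s hs
    have hs1 : s ≠ 1 := by
      rintro rfl
      simp at hs
    rw [hE2 s hs1, ← (hF.2 s hs).tsum_eq, Lc]
    let e : (Ideal (𝓞 K))⁰ ≃ {I : Ideal (𝓞 K) // I ≠ ⊥} :=
      Equiv.subtypeEquivRight (fun I => mem_nonZeroDivisors_iff_ne_zero)
    rw [← Equiv.tsum_eq e]
    refine tsum_congr fun I => ?_
    have h1 : ((e I : {I : Ideal (𝓞 K) // I ≠ ⊥}) : Ideal (𝓞 K)) = (I : Ideal (𝓞 K)) := rfl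
    rw [h1]
    congr 1
    by_cases hp : Pr K f (I : Ideal (𝓞 K))
    · rw [if_pos hp, hcor _ hp]
    · rw [if_neg hp]
      symm
      apply χ.eq_zero
      intro h2
      rw [hχ] at h2
      exact hp ⟨nonZeroDivisors.coe_ne_zero I, h2⟩
  · have h1 : (1 / 2 : ℂ) ≠ 1 := by norm_num
    rw [hE2 _ h1]
    exact hF2

end Pool.Agent.H37.CF
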