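import Pool.Agent.H37.CF.Targets

/-!
# Ideals prime to `f`
-/

set_option autoImplicit false

open NumberField

namespace Pool.Agent.H37.CF

theorem pf_COP (hPRN : Pool.Agent.H95.CF.T_PRN) : T_COP := by
  intro K _ _ f I hI
  rw [← hPRN K f I hI]
  exact ⟨fun h => ⟨hI, h⟩, fun h => h.2⟩

end Pool.Agent.H37.CF
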