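import Pool.Agent.H10.CF.CRGE
import Pool.Agent.H14.CF.PPCT
import Pool.Agent.H21.CF.CHSB
import Pool.Agent.H23.CF.CCND
import Pool.Agent.H23.CF.CCNU
import Pool.Agent.H29.CF.CPRA
import Pool.Agent.H31.CN.Sml
import Pool.Agent.H36.CF.CGRP
import Pool.Agent.H36.CF.CWWB
import Pool.Agent.H37.CF.CCPI
import Pool.Agent.H37.CF.CCYC
import Pool.Agent.H37.CF.CEQP
import Pool.Agent.H37.CF.CHDC
import Pool.Agent.H37.CF.CNVR
import Pool.Agent.H37.CF.COP
import Pool.Agent.H37.CF.CPPT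
import Pool.Agent.H48.CF.CHGX
import Pool.Agent.H49.CF.CCNP
import Pool.Agent.H54.CF.CNPR
import Pool.Agent.H56.CF.PPRN
import Pool.Agent.H60.CF.CINV
import Pool.Agent.H69.CN.CH2
import Pool.Agent.H70.CF.CGTR
import Pool.Agent.H73.CF.CNRT
import Pool.Agent.H73.CF.CPRC
import Pool.Agent.H76.CF.CBIJ
import Pool.Agent.H76.CF.CRTG
import Pool.Agent.H79.CF.CRRL
import Pool.Agent.H79.CF.CSIE
import Pool.Agent.H79.CF.CSIP
import Pool.Agent.H85.CF.CCNM
import Pool.Agent.H99.CF.CCGR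
import Pool.Agent.H99.CF.CCLA
import Pool.Agent.H99.CF.CORG
import Pool.Agent.H99.CF.CSPG
import Pool.Agent.H99.CF.CUNI

/-!
# Complete family, algebra: the assembly
-/

set_option autoImplicit false

namespace Pool.Agent.H37.CF

theorem c_COP : T_COP := pf_COP Pool.Agent.H56.CF.pf_PRN

theorem c_INV : T_INV := Pool.Agent.H60.CF.pf_INV c_COP

theorem c_CPI : T_CPI := pf_CPI

theorem c_UNI : T_UNI := Pool.Agent.H99.CF.pf_UNI

theorem c_RGE : T_RGE := Pool.Agent.H10.CF.pf_RGE c_COP c_INV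

theorem c_CLA : T_CLA := Pool.Agent.H99.CF.pf_CLA c_CPI

theorem c_EQP : T_EQP := pf_EQP c_UNI

theorem c_CNU : T_CNU := Pool.Agent.H23.CF.pf_CNU Pool.Agent.H85.CF.pf_CNM Pool.Agent.H49.CF.pf_CNP

theorem c_HDC : T_HDC := pf_HDC c_COP c_EQP

theorem c_GRP : T_GRP := Pool.Agent.H36.CF.pf_GRP c_CLA c_HDC c_CNU Pool.Agent.H73.CF.pf_NRT

theorem c_CGR : T_CGR := Pool.Agent.H99.CF.pf_CGR

/-- the conductor of a character which is trivial on the rational numbers -/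
theorem c_CND : Pool.Agent.H91.CF.T_CND := Pool.Agent.H23.CF.pf_CND c_CGR pf_CYC pf_PPT

theorem c_RTG : T_RTG := Pool.Agent.H76.CF.pf_RTG Pool.Agent.H31.CN.pf_ICP

theorem c_SPG : T_SPG := Pool.Agent.H99.CF.pf_SPG

theorem c_ORG : T_ORG := Pool.Agent.H99.CF.pf_ORG c_UNI c_SPG

/-- few class group characters are real -/
theorem c_RRL (hHSU : Pool.Agent.H91.CF.T_HSU) : Pool.Agent.H91.CF.T_RRL :=
  Pool.Agent.H79.CF.pf_RRL c_ORG Pool.Agent.H69.CN.pf_CH2 Pool.Agent.H79.CF.pf_SIE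
    Pool.Agent.H79.CF.pf_SIP hHSU

theorem c_PRA : T_PRA := Pool.Agent.H29.CF.pf_PRA c_COP pf_CYC

/-- the characters of degree 2 of the Galois groups and the ring class characters -/
theorem c_BIJ : T_BIJ :=
  Pool.Agent.H76.CF.pf_BIJ Pool.Agent.H31.CN.pf_ICP c_RTG
    (Pool.Agent.H70.CF.pf_GTR Pool.Agent.H31.CN.pf_ICP c_PRA)

theorem c_HSB : T_HSB := Pool.Agent.H21.CF.pf_HSB c_EQP

/-- the numbers of the characters which are trivial on the kernels -/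
theorem c_HGX : T_HGX := Pool.Agent.H48.CF.CHGX.pf_HGX c_HSB c_GRP

theorem c_NPR : T_NPR := Pool.Agent.H54.CF.pf_NPR c_HSB c_GRP Pool.Agent.H73.CF.pf_PRC

/-- the numbers of the characters of a given conductor -/
theorem c_WWB (hLFE : Pool.Agent.H95.CF.T_LFE) : T_WWB :=
  Pool.Agent.H36.CF.pf_WWB c_BIJ c_GRP c_NPR (pf_NVR hLFE Pool.Agent.H14.CF.pf_PCT)

end Pool.Agent.H37.CF
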