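import Pool.Agent.H37.CF.Basic

/-!
# The primitive part of an ideal
-/

set_option autoImplicit false

open NumberField
open scoped nonZeroDivisors

namespace Pool.Agent.H37.CF

open Pool.Agent.H31.CN Pool.Agent.H95.CF

theorem pf_PPT : T_PPT := by
  intro K _ _ I
  have key : ∀ N : ℕ, ∀ I : Ideal (𝓞 K), Ideal.absNorm I ≤ N → I ≠ ⊥ →
      ∃ (f : ℕ) (J : Ideal (𝓞 K)), 1 ≤ f ∧ J ≠ ⊥ ∧ I = Ideal.span {(f : 𝓞 K)} * J ∧
        ∀ p : ℕ, p.Prime → ¬ J ≤ Ideal.span {(p : 𝓞 K)} := by
    intro N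
    induction N with
    | zero =>
      intro I hI h0
      exact absurd (Ideal.absNorm_eq_zero_iff.1 (by omega)) h0
    | succ N ih =>
      intro I hI h0
      by_cases h : ∀ p : ℕ, p.Prime → ¬ I ≤ Ideal.span {(p : 𝓞 K)}
      · refine ⟨1, I, le_refl _, h0, ?_, h⟩
        rw [Nat.cast_one, Ideal.span_singleton_one, Ideal.top_mul]
      · push Not at h
        obtain ⟨p, hp, hle⟩ := h
        obtain ⟨I', rfl⟩ := Ideal.dvd_iff_le.2 hle
        have h1 : I' ≠ ⊥ := by
          rintro rfl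
          exact h0 (by rw [Ideal.mul_bot])
        have h2 : Ideal.absNorm (Ideal.span {(p : 𝓞 K)}) ≠ 1 := by
          rw [Ne, Ideal.absNorm_eq_one_iff]
          exact not_unit_prime hp
        have h3 : Ideal.absNorm (Ideal.span {(p : 𝓞 K)}) ≠ 0 := by
          intro h4
          rw [Ideal.absNorm_eq_zero_iff] at h4
          exact h0 (by rw [h4, Ideal.bot_mul])
        have h4 : Ideal.absNorm I' ≠ 0 := by
          rw [Ne, Ideal.absNorm_eq_zero_iff]
          exact h1
        rw [map_mul] at hI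
        have h5 : Ideal.absNorm I' ≤ N := by
          have h6 : 2 ≤ Ideal.absNorm (Ideal.span {(p : 𝓞 K)}) := by omega
          have h7 : 2 * Ideal.absNorm I' ≤ N + 1 := le_trans (Nat.mul_le_mul_right _ h6) hI
          omega
        obtain ⟨f, J, hf, hJ, he, hall⟩ := ih I' h5 h1
        refine ⟨p * f, J, Nat.mul_pos hp.pos hf, hJ, ?_, hall⟩
        rw [he, ← mul_assoc, Ideal.span_singleton_mul_span_singleton]
        push_cast
        rfl
  exact key _ I le_rfl

end Pool.Agent.H37.CF
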